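import Pool.Agent.MWFE.StmtsA

/-!
# Row EXR (squad MWFE, MP_23468a_al): reduction to the exact period
-/

set_option autoImplicit false

namespace Pool.Agent.MWFE.H4

open Pool.Agent.Helper14_MV Pool.Agent.Helper2_MV Pool.Agent.MVD
open Pool.Agent.MWE (Can XX fxy dxy dx dy up cp L4 pr Xs xl isx Fs nd nr)
open Pool.Agent.MWGR (cb)

/-- period `d` for the letter `0` -/
def Pd (β : FIC) (d : ℕ) : Prop := RR β (List.replicate 2 0) (List.replicate (d + 2) 0)

variable {β : FIC}

theorem trans' {a b c : List ℕ} (h : RR β a b) (h' : RR β b c) : RR β a c := β.trans h h'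

theorem ctx {l l' : List ℕ} (p q : List ℕ) (h : RR β l l') :
    RR β (p ++ (l ++ q)) (p ++ (l' ++ q)) :=
  (RR.refl p).append (h.append (RR.refl q))

theorem rep_let {i j : ℕ} (v : ℕ) (h : RR β (List.replicate i 0) (List.replicate j 0)) :
    RR β (List.replicate i v) (List.replicate j v) := by
  have h1 := h.sub (fun _ => [v])
  have e : ∀ k : ℕ, (List.replicate k 0).flatMap (fun _ : ℕ => [v]) = List.replicate k v := by
    intro k
    induction k with
    | zero => rfl
    | succ k ih => rw [List.replicate_succ, List.flatMap_cons, ih]; rfl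
  rwa [e, e] at h1

theorem step {d : ℕ} (h : Pd β d) (a : ℕ) (ha : 2 ≤ a) :
    RR β (List.replicate a 0) (List.replicate (a + d) 0) := by
  obtain ⟨b, rfl⟩ : ∃ b, a = b + 2 := ⟨a - 2, by omega⟩
  have h1 := (RR.refl (β := β) (List.replicate b 0)).append h
  rw [List.replicate_append_replicate, List.replicate_append_replicate] at h1
  have e : b + 2 + d = b + (d + 2) := by omega
  rw [e]
  exact h1

theorem steps {d : ℕ} (h : Pd β d) (a k : ℕ) (ha : 2 ≤ a) :
    RR β (List.replicate a 0) (List.replicate (a + d * k) 0) := by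
  induction k with
  | zero => exact RR.refl _
  | succ k ih =>
    have e : a + d * (k + 1) = a + d * k + d := by ring
    rw [e]
    exact trans' ih (step h _ (by omega))

theorem pmod {d : ℕ} (h : Pd β d) {a b : ℕ} (ha : 2 ≤ a) (hb : 2 ≤ b) (hab : a ≡ b [MOD d]) :
    RR β (List.replicate a 0) (List.replicate b 0) := by
  rcases le_total a b with h1 | h1
  · obtain ⟨k, hk⟩ := (Nat.modEq_iff_dvd' h1).1 hab
    have e : b = a + d * k := by omega
    rw [e]
    exact steps h a k ha
  · obtain ⟨k, hk⟩ := (Nat.modEq_iff_dvd' h1).1 hab.symm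
    have e : a = b + d * k := by omega
    rw [e]
    exact (steps h b k hb).symm

theorem pmod' {d : ℕ} (h : Pd β d) (v : ℕ) {a b : ℕ} (ha : 2 ≤ a) (hb : 2 ≤ b)
    (hab : a ≡ b [MOD d]) : RR β (List.replicate a v) (List.replicate b v) :=
  rep_let v (pmod h ha hb hab)

/-- differences of equivalent exponents are periods -/
theorem diff {n : ℕ} (hn : 1 ≤ n) (h : Pd β n) {i j : ℕ} (hi : 2 ≤ i) (hij : i ≤ j)
    (hr : RR β (List.replicate i 0) (List.replicate j 0)) : Pd β (j - i) := by
  have hni : i ≤ n * i := Nat.le_mul_of_pos_left i hn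
  have h1 := hr.append (RR.refl (β := β) (List.replicate (2 + n * i - i) 0))
  rw [List.replicate_append_replicate, List.replicate_append_replicate] at h1
  have e1 : i + (2 + n * i - i) = 2 + n * i := by omega
  have e2 : j + (2 + n * i - i) = (j - i + 2) + n * i := by omega
  rw [e1, e2] at h1
  exact trans' (steps h 2 i le_rfl) (trans' h1 (steps h (j - i + 2) i (by omega)).symm)

theorem exr : ExrStmt := by
  intro n β hn hper hi3 hit hr0 hell hff hzz hrc
  have hP : Pd β n := hper
  classical
  have hex : ∃ d, 1 ≤ d ∧ Pd β d := ⟨n, hn, hP⟩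
  obtain ⟨d, ⟨hd1, hPd⟩, hmin⟩ : ∃ d, (1 ≤ d ∧ Pd β d) ∧ ∀ e, e < d → ¬ (1 ≤ e ∧ Pd β e) :=
    ⟨Nat.find hex, Nat.find_spec hex, fun e he => Nat.find_min hex he⟩
  -- every period is a multiple of `d`
  have hdvd : ∀ a, Pd β a → d ∣ a := by
    intro a ha
    have hr : Pd β (a % d) := by
      have e : RR β (List.replicate (a % d + 2) 0) (List.replicate (a + 2) 0) := by
        apply pmod hPd (by omega) (by omega)
        exact Nat.ModEq.add_right 2 (Nat.mod_modEq a d)
      exact trans' ha e.symm
    have hlt : a % d < d := Nat.mod_lt _ (by omega)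
    have h0 : a % d = 0 := by
      by_contra hne
      exact hmin _ hlt ⟨by omega, hr⟩
    exact Nat.dvd_of_mod_eq_zero h0
  have hdn : d ∣ n := hdvd n hP
  have hdle : d ≤ n := Nat.le_of_dvd (by omega) hdn
  have hnd : n ≡ d [MOD d] := by
    have h1 : n ≡ 0 [MOD d] := (Nat.modEq_zero_iff_dvd).2 hdn
    have h2 : d ≡ 0 [MOD d] := (Nat.modEq_zero_iff_dvd).2 (dvd_refl d)
    exact h1.trans h2.symm
  -- `d` is not `1`
  have hd2 : 2 ≤ d := by
    by_contra hlt
    have hd : d = 1 := by omega
    subst hd
    have hall : ∀ a b v : ℕ, 2 ≤ a → 2 ≤ b → RR β (List.replicate a v) (List.replicate b v) :=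
      fun a b v ha hb => pmod' hPd v ha hb (Nat.modEq_one)
    apply hrc
    have s1 : RR β (cw 3 1) [0, 0, 3, 0, 2, 3] := ctx [] [3, 0, 2, 3] (hall 3 2 0 (by omega) le_rfl)
    have s2 : RR β [0, 0, 3, 0, 2, 3] ([0, 0, 3] ++ (List.replicate (n + 1) 0 ++ [2, 3])) := by
      have h1 := hit [0] [3] [] [2, 3] 0 (by intro a ha; simp at ha; subst ha; decide)
      have e : ([0] ++ 0 :: ([3] ++ (List.replicate n 0 ++ ([] ++ 0 :: [2, 3]))) : List ℕ) =
          [0, 0, 3] ++ (List.replicate (n + 1) 0 ++ [2, 3]) := by
        rw [List.replicate_succ']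
        simp
      rw [e] at h1
      exact h1
    have s3 : RR β ([0, 0, 3] ++ (List.replicate (n + 1) 0 ++ [2, 3])) (cw 2 2) :=
      ctx [0, 0, 3] [2, 3] (hall (n + 1) 2 0 (by omega) le_rfl)
    exact trans' s1 (trans' s2 s3)
  refine ⟨d, ⟨hd2, hi3, hff, hzz, hPd, ?_, ?_, ?_, ?_, ?_, hrc⟩, ?_⟩
  · -- `ex`
    intro i j hi hj hij
    rcases le_total i j with h1 | h1
    · exact (Nat.modEq_iff_dvd' h1).2 (hdvd _ (diff hn hP hi h1 hij))
    · exact ((Nat.modEq_iff_dvd' h1).2 (hdvd _ (diff hn hP hj h1 hij.symm))).symm
  · -- `It d`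
    intro p w w' q x hM
    have h1 := hit p w w' q x hM
    have hM2 : MVO.Sys.Mul ((w ++ List.replicate d x) ++ w')
        (p ++ x :: ((w ++ List.replicate d x) ++ (w' ++ x :: q))) := by
      intro a ha
      have key : (p ++ x :: (w ++ (w' ++ x :: q))).count a ≤
          (p ++ x :: ((w ++ List.replicate d x) ++ (w' ++ x :: q))).count a := by
        simp only [List.count_append, List.count_cons]
        omega
      by_cases hax : a = x
      · subst hax
        simp only [List.count_append, List.count_cons, List.count_replicate, beq_self_eq_true,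
          if_true]
        omega
      · have : a ∈ w ++ w' := by
          simp only [List.mem_append, List.mem_replicate] at ha ⊢
          rcases ha with (h | h) | h
          · exact Or.inl h
          · exact absurd h.2 hax
          · exact Or.inr h
        exact le_trans (hM a this) key
    have h2 := hit p (w ++ List.replicate d x) w' q x hM2
    have h3 : RR β (p ++ x :: (w ++ (List.replicate n x ++ (w' ++ x :: q))))
        (p ++ x :: (w ++ (List.replicate (d + n) x ++ (w' ++ x :: q)))) := by
      have hm : n ≡ d + n [MOD d] := by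
        have := (Nat.ModEq.add_right n ((Nat.modEq_zero_iff_dvd).2 (dvd_refl d)))
        rw [zero_add] at this
        exact this.symm
      have := ctx (p ++ x :: w) (w' ++ x :: q)
        (pmod' hPd x (by omega : 2 ≤ n) (by omega : 2 ≤ d + n) hm)
      simpa only [List.append_assoc, List.cons_append] using this
    rw [← List.replicate_append_replicate] at h3
    simp only [List.append_assoc] at h1 h2 h3 ⊢
    exact trans' h1 (trans' h3 h2.symm)
  · -- `R0`
    have h1 := RR.sub (fun i => if i = 1 then [3] else [i]) hr0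
    exact h1
  · -- `L d`
    have hm : RR β (List.replicate (n + 1) 0) (List.replicate (d + 1) 0) :=
      pmod hPd (by omega) (by omega) (Nat.ModEq.add_right 1 hnd)
    have h1 : RR β (List.replicate (n + 1) 0 ++ 2 :: (List.replicate (n + 1) 0 ++
        3 :: List.replicate (n + 1) 0))
        (List.replicate (d + 1) 0 ++ 2 :: (List.replicate (d + 1) 0 ++
          3 :: List.replicate (d + 1) 0)) :=
      hm.append ((RR.refl [2]).append (hm.append ((RR.refl [3]).append hm)))
    exact trans' hell h1
  · -- `S2` fails
    intro hS2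
    apply hrc
    have h1 := (RR.refl (β := β) [0]).append
      (RR.sub (fun i => if i = 2 then [] else if i = 5 then [0, 2] else [i]) hS2)
    exact h1
  · -- `FE`
    intro hfe p q w r x a b hxa hxb hab hM
    have m1 : RR β (List.replicate n x) (List.replicate d x) :=
      pmod' hPd x (by omega) (by omega) hnd
    have m2 : RR β (List.replicate (n + 1) x) (List.replicate (d + 1) x) :=
      pmod' hPd x (by omega) (by omega) (Nat.ModEq.add_right 1 hnd)
    have m3 : RR β (List.replicate (n + (n - 1) * 1) x) (List.replicate (d + (d - 1) * 1) x) := by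
      apply pmod' hPd x (by omega) (by omega)
      have e : (n + (n - 1) * 1) + 1 ≡ (d + (d - 1) * 1) + 1 [MOD d] := by
        have e1 : (n + (n - 1) * 1) + 1 = n + n := by omega
        have e2 : (d + (d - 1) * 1) + 1 = d + d := by omega
        rw [e1, e2]
        exact hnd.add hnd
      exact Nat.ModEq.add_right_cancel' 1 e
    have L1 : RR β (p ++ (List.replicate n x ++ a :: (List.replicate (n + 1) x ++
        b :: (List.replicate n x ++ (q ++ a :: (w ++ b :: r))))))
        (p ++ (List.replicate d x ++ a :: (List.replicate (d + 1) x ++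
        b :: (List.replicate d x ++ (q ++ a :: (w ++ b :: r)))))) :=
      (RR.refl p).append (m1.append ((RR.refl [a]).append (m2.append ((RR.refl [b]).append
        (m1.append (RR.refl _))))))
    have L2 : RR β (p ++ (List.replicate (n + 1) x ++ b :: (List.replicate (n + (n - 1) * 1) x ++
        a :: (List.replicate (n + 1) x ++ (q ++ a :: (w ++ b :: r))))))
        (p ++ (List.replicate (d + 1) x ++ b :: (List.replicate (d + (d - 1) * 1) x ++
        a :: (List.replicate (d + 1) x ++ (q ++ a :: (w ++ b :: r)))))) :=
      (RR.refl p).append (m2.append ((RR.refl [b]).append (m3.append ((RR.refl [a]).append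
        (m2.append (RR.refl _))))))
    refine trans' L1 (trans' (hfe p q w r x a b hxa hxb hab ?_) L2.symm)
    intro v hv
    have h1 := hM v hv
    by_cases hvx : v = x
    · subst hvx
      simp only [List.count_append, List.count_cons, List.count_replicate, beq_self_eq_true,
        if_true]
      omega
    · have h0 : ∀ k, (List.replicate k x).count v = 0 := by
        intro k
        rw [List.count_replicate]
        simp [Ne.symm hvx]
      simp only [List.count_append, List.count_cons, h0] at h1 ⊢
      exact h1

end Pool.Agent.MWFE.H4
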